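import Mathlib
import Pool.Agent.H29.DC5

set_option autoImplicit false

namespace Pool.Agent.Results.MP_7cecc1_co.Multi

open Finset Pool.Agent.H29.DC

/-- `w u v` is the weight (or multiplicity) of the arc `u → v`, and `0` if there is none -/
def Acyclic {V : Type} (w : V → V → ℝ) : Prop :=
  ∀ v, ¬ Relation.TransGen (fun a b => w a b ≠ 0) v v

/-- largest weight of a directed cut -/
noncomputable def mac {V : Type} [Fintype V] [DecidableEq V] (w : V → V → ℝ) : ℝ :=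
  ⨆ X : Finset V, ∑ u ∈ X, ∑ v ∈ Xᶜ, w u v

/-- the exponent of the class of acyclic digraphs whose values `w u v` all lie in `S` -/
noncomputable def alpha0 (S : Set ℝ) : ℝ :=
  sSup {α : ℝ | 0 < α ∧ ∃ k : ℝ, 0 < k ∧ ∀ (V : Type) [Fintype V] [DecidableEq V]
    (w : V → V → ℝ), (∀ u v, w u v ∈ S) → Acyclic w →
      (∑ u, ∑ v, w u v) / 4 + k * (∑ u, ∑ v, w u v) ^ α ≤ mac w}

theorem aux (S : Set ℝ) (h1 : ∀ r ∈ S, r = 0 ∨ 1 ≤ r) (h2 : ∀ n : ℕ, (n : ℝ) ∈ S) :
    alpha0 S = 3 / 5 := by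
  refine IsGreatest.csSup_eq ⟨⟨by norm_num, 1 / 128, by norm_num, fun V _ _ w hw ac => ?_⟩, ?_⟩
  · obtain ⟨X, hX⟩ := lower w (fun u v => h1 _ (hw u v)) ac
    exact hX.trans (le_ciSup (f := fun X : Finset V => ∑ u ∈ X, ∑ v ∈ Xᶜ, w u v)
      (Set.finite_range _).bddAbove X)
  rintro α ⟨h0, κ, hκ, h⟩
  by_contra hα
  rw [not_le] at hα
  obtain ⟨k, hk⟩ := exists_nat_gt (max 2 (4 / (5 * α - 3)))
  rw [max_lt_iff, div_lt_iff₀ (by linarith)] at hk
  have hk2 : 2 ≤ k := by exact_mod_cast hk.1.le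
  obtain ⟨q, hq, hb⟩ := big (5 * k + 3 : ℕ) (3 * k + 4 : ℕ) α (1 / (24 * (5 ^ (2 * k)) ^ (2 * k)))
    (25 * 4 ^ (2 * k)) κ (by push_cast; nlinarith) h0 (by positivity) hκ (5 ^ (2 * k))
    (by positivity)
  obtain ⟨I, K, y, hK, hy, hT, hc⟩ := multi k q hk2 hq
  have a1 := h I (fun u v => if u.1 < v.1 then K u v * y u * y v else 0) (fun u v => by
    obtain ⟨c, hc⟩ := hK u v
    have := h2 0
    have := h2 c
    split_ifs
    · rcases hy u with a | a <;> rcases hy v with b | b <;> simp_all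
    · simp_all) (acyc I K y)
  have a2 : mac (fun u v : I => if u.1 < v.1 then K u v * y u * y v else 0) ≤ _ :=
    ciSup_le (transfer I K y hy _ hc)
  have a3 := hb (pair I K y y) (le_trans (le_of_eq ?_) hT)
  · rw [tot_eq] at a1
    rw [Real.rpow_natCast] at a3
    linarith
  · rw [Real.rpow_natCast]
    push_cast
    field_simp
    ring

lemma all_parts : alpha0 {r | r = 0 ∨ 1 ≤ r} = 3 / 5 ∧ alpha0 {r | ∃ n : ℕ, r = n} = 3 / 5 :=
  ⟨aux _ (fun _ h => h) fun n => by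
      rcases n with _ | n
      · simp
      · exact Or.inr (by simp),
    aux _ (by
      rintro _ ⟨n, rfl⟩
      rcases n with _ | n
      · simp
      · exact Or.inr (by simp)) fun n => ⟨n, rfl⟩⟩

theorem result : alpha0 {r | ∃ n : ℕ, r = n} = 3 / 5 :=
  all_parts.2

end Pool.Agent.Results.MP_7cecc1_co.Multi
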