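import Mathlib
import Pool.Agent.Results.MP_7cecc1_co.Multi

namespace Pool.Agent.Results.MP_7cecc1_co.Weighted

open Pool.Agent.H29.DC Pool.Agent.Results.MP_7cecc1_co.Multi

theorem result : alpha0 {r | r = 0 ∨ 1 ≤ r} = 3 / 5 :=
  all_parts.1

end Pool.Agent.Results.MP_7cecc1_co.Weighted
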